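import Mathlib

open Complex Filter Topology Set Metric

namespace Pool.Agent.Results.MP_902c37_an.Core

/-- Levi form: `∂²/∂ζ∂ζ̄` of `ζ ↦ φ (z + ζ ξ)` at `ζ = 0`, i.e. a quarter of its Laplacian -/
noncomputable def Lev {n : ℕ} (φ : (Fin n → ℂ) → ℝ) (z ξ : Fin n → ℂ) : ℝ :=
  (deriv (deriv fun s : ℝ => φ (z + (s : ℂ) • ξ)) 0 + deriv (deriv fun s : ℝ => φ (z + (s * I : ℂ) • ξ)) 0) / 4

/-- the core of `D` -/
def core {n : ℕ} (D : Set (Fin n → ℂ)) : Set (Fin n → ℂ) := {z ∈ D | ¬∃ φ : (Fin n → ℂ) → ℝ, ContDiffOn ℝ (⊤ : ℕ∞) φ D ∧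
  (∀ w ∈ D, ∀ ξ, 0 ≤ Lev φ w ξ) ∧ BddAbove (φ '' D) ∧ ∀ ξ ≠ 0, 0 < Lev φ z ξ}

lemma mx {f : ℝ → ℝ} (h : IsLocalMax f 0) (c : ContinuousAt f 0) : deriv (deriv f) 0 ≤ 0 := not_lt.1 fun e => by
  have : f =ᶠ[𝓝 0] fun _ => f 0 :=
    (h.and (isLocalMin_of_deriv_deriv_pos e h.deriv_eq_zero c)).mono fun _ a => le_antisymm a.1 a.2
  simp [this.deriv.deriv_eq] at e

lemma cmp {f g : ℝ → ℝ} (h : IsLocalMax (f - g) 0) (a : ContDiffAt ℝ 2 f 0) (b : ContDiffAt ℝ 2 g 0) :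
    deriv (deriv f) 0 ≤ deriv (deriv g) 0 := by
  have := iteratedDeriv_sub a b
  simp only [iteratedDeriv_eq_iterate, Function.iterate_succ_apply, Function.iterate_zero_apply] at this
  linarith [mx h (a.sub b).continuousAt]

lemma poly (a b c d e : ℝ) : deriv (deriv fun s : ℝ => a + b * s + c * s ^ 2 + d * s ^ 3 + e * s ^ 4) 0 = 2 * c := by
  have : (deriv fun s : ℝ => a + b * s + c * s ^ 2 + d * s ^ 3 + e * s ^ 4) =
      fun s => b + 2 * c * s + 3 * d * s ^ 2 + 4 * e * s ^ 3 := by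
    ext s; simp (disch := fun_prop) [deriv_fun_add]; ring
  rw [this]; simp (disch := fun_prop) [deriv_fun_add]

lemma nq (a b c a' b' : ℂ) : deriv (deriv fun s : ℝ => normSq (a' + b' * s) + normSq (a + b * s + c * s ^ 2)) 0 =
    2 * (normSq b' + normSq b + 2 * (a.re * c.re + a.im * c.im)) := by
  rw [← poly (normSq a' + normSq a) (2 * (a'.re * b'.re + a'.im * b'.im + a.re * b.re + a.im * b.im)) _
    (2 * (b.re * c.re + b.im * c.im)) (normSq c)]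
  congr 2; ext s; simp [normSq_apply, sq]; ring

lemma lev1 (z ξ : Fin 2 → ℂ) : Lev (fun z => normSq (z 0) + normSq (z 0 * z 1)) z ξ =
    normSq (ξ 0) + normSq (z 0 * ξ 1 + z 1 * ξ 0) := by
  have a := nq (z 0 * z 1) (z 0 * ξ 1 + z 1 * ξ 0) (ξ 0 * ξ 1) (z 0) (ξ 0)
  have b := nq (z 0 * z 1) (I * (z 0 * ξ 1 + z 1 * ξ 0)) (-(ξ 0 * ξ 1)) (z 0) (I * ξ 0)
  refine (congrArg₂ (fun x y : ℝ => (x + y) / 4) (Eq.trans ?_ a) (Eq.trans ?_ b)).trans ?_
  rotate_right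
  · simp only [map_mul, normSq_I, neg_re, neg_im]; ring
  · congr 2; ext s; simp only [Pi.add_apply, Pi.smul_apply, smul_eq_mul]
    congr 2 <;> ring
  · congr 2; ext s; simp only [Pi.add_apply, Pi.smul_apply, smul_eq_mul]
    congr 2; ring; linear_combination (s ^ 2 * ξ 0 * ξ 1) * I_mul_I

lemma lev2 (z ξ : Fin 2 → ℂ) : Lev (fun z => normSq (z 0) + normSq (z 1)) z ξ = normSq (ξ 0) + normSq (ξ 1) := by
  have a := nq (z 1) (ξ 1) 0 (z 0) (ξ 0)
  have b := nq (z 1) (I * ξ 1) 0 (z 0) (I * ξ 0)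
  refine (congrArg₂ (fun x y : ℝ => (x + y) / 4) (Eq.trans ?_ a) (Eq.trans ?_ b)).trans ?_
  rotate_right
  · simp; ring
  all_goals congr 2; ext s; simp only [Pi.add_apply, Pi.smul_apply, smul_eq_mul]; congr 2 <;> ring

lemma bar (A δ : ℝ) {ζ e : ℂ} (h : ζ ≠ 0) (he : normSq e = 1) :
    deriv (deriv fun s : ℝ => A * Real.log (normSq (ζ + s * e)) - δ * normSq (ζ + s * e)) 0 =
      A * (2 * normSq ζ - 4 * (ζ.re * e.re + ζ.im * e.im) ^ 2) / normSq ζ ^ 2 - 2 * δ := by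
  have n0 := normSq_pos.2 h
  have : ∀ s : ℝ, normSq (ζ + s * e) = normSq ζ + 2 * (ζ.re * e.re + ζ.im * e.im) * s + s ^ 2 := fun s => by
    simp [normSq_apply] at he ⊢; linear_combination s ^ 2 * he
  simp only [this]
  generalize normSq ζ = a at *
  generalize ζ.re * e.re + ζ.im * e.im = b
  have N : ∀ s : ℝ, HasDerivAt (fun s : ℝ => a + 2 * b * s + s ^ 2) (2 * b + 2 * s) s := fun s => by
    simpa using (((hasDerivAt_id s).const_mul (2 * b)).const_add a).fun_add (hasDerivAt_pow 2 s)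
  have N' : HasDerivAt (fun s : ℝ => 2 * b + 2 * s) 2 0 := by simpa using ((hasDerivAt_id (0 : ℝ)).const_mul 2).const_add (2 * b)
  rw [EventuallyEq.deriv_eq (((N 0).continuousAt.eventually_ne (y := 0) (by simpa using n0.ne')).mono fun s hs =>
    ((((N s).log hs).const_mul A).fun_sub ((N s).const_mul δ)).deriv),
    (((N'.fun_div (N 0) (by simpa using n0.ne')).const_mul A).fun_sub (N'.const_mul δ)).deriv]
  simp; ring

def Ω : Set (Fin 2 → ℂ) := {z | ‖z 0‖ < 1 ∧ ‖z 0 * z 1‖ < 1 ∧ (z 0 ≠ 0 ∨ ‖z 1‖ < 1)}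

lemma oΩ : IsOpen Ω := by
  refine IsOpen.and (isOpen_lt ?_ ?_) (IsOpen.and (isOpen_lt ?_ ?_)
    (IsOpen.union (isOpen_ne_fun ?_ ?_) (isOpen_lt (f := fun z : Fin 2 → ℂ => ‖z 1‖) (g := fun _ => 1) ?_ ?_))) <;>
    fun_prop

lemma cn : ContDiff ℝ (⊤ : ℕ∞) normSq := by
  have : (normSq : ℂ → ℝ) = fun z => reCLM z * reCLM z + imCLM z * imCLM z := funext normSq_apply
  rw [this]; fun_prop

lemma zero_mem : 0 ∈ core Ω := by
  refine ⟨by simp [Ω], fun ⟨φ, c, p, ⟨M, hM⟩, s⟩ => ?_⟩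
  have ca : ∀ z ∈ Ω, ContDiffAt ℝ 2 φ z := fun z hz => (c.contDiffAt (oΩ.mem_nhds hz)).of_le (by norm_cast)
  have ln : ∀ (t ζ e : ℂ) (s : ℝ), ![t, ζ] + (s * e) • ![0, 1] = ![t, ζ + s * e] := fun t ζ e s => by simp
  have sub : ∀ t ζ : ℂ, ![t, ζ] ∈ Ω → ∀ g : ℂ → ℝ, ContDiffAt ℝ 2 g ζ → IsLocalMax (fun ζ => φ ![t, ζ] - g ζ) ζ →
      4 * Lev φ ![t, ζ] ![0, 1] ≤ deriv (deriv fun s : ℝ => g (ζ + s * 1)) 0 + deriv (deriv fun s : ℝ => g (ζ + s * I)) 0 := by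
    intro t ζ h g hg m
    have : ∀ e : ℂ, deriv (deriv fun s : ℝ => φ (![t, ζ] + (s * e) • ![0, 1])) 0 ≤
        deriv (deriv fun s : ℝ => g (ζ + s * e)) 0 := fun e => by
      have l : ContDiff ℝ 2 fun s : ℝ => ζ + s * e := contDiff_const.add (ofRealCLM.contDiff.mul contDiff_const)
      refine cmp ?_ (ContDiffAt.comp (g := φ) 0 (by simpa using ca _ h) (contDiff_const.add
        ((ofRealCLM.contDiff.mul contDiff_const).smul contDiff_const)).contDiffAt)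
        (ContDiffAt.comp (g := g) 0 (by simpa) l.contDiffAt)
      simp only [ln]
      exact IsLocalMax.comp_continuous (f := fun ζ => φ ![t, ζ] - g ζ) (by simpa) l.continuous.continuousAt
    have a := this 1
    simp only [mul_one] at a ⊢
    rw [Lev]; linarith [this I]
  have z0 : (![0, 0] : Fin 2 → ℂ) = 0 := by simp
  obtain ⟨ζ, ζ1, ζ2⟩ : ∃ ζ : ℂ, ‖ζ‖ < 1 ∧ φ 0 < φ ![0, ζ] := by
    by_contra! h
    have := sub 0 0 (by simp [Ω]) (fun _ => 0) contDiffAt_const (Filter.mem_of_superset (ball_mem_nhds 0 one_pos)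
      fun ζ e => by simpa [z0] using h ζ (by simpa using e))
    simp [z0] at this; linarith [s ![0, 1] (by simp)]
  obtain ⟨η, hη⟩ : ∃ η, η = (φ ![0, ζ] - φ 0) / 4 := ⟨_, rfl⟩
  have η0 : 0 < η := by linarith
  have ζ0 : 0 < ‖ζ‖ := norm_pos_iff.2 fun e => by simp [e, z0] at ζ2
  obtain ⟨r', r0, hr⟩ := Metric.continuousAt_iff.1 (ca 0 (by simp [Ω])).continuousAt η η0
  obtain ⟨r, r1, r2, r3⟩ : ∃ r, 0 < r ∧ r < r' ∧ r < ‖ζ‖ := ⟨min r' ‖ζ‖ / 2, by positivity,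
    by linarith [min_le_left r' ‖ζ‖], by linarith [min_le_right r' ‖ζ‖]⟩
  have l0 : Real.log (r ^ 2) < Real.log (‖ζ‖ ^ 2) := Real.log_lt_log (by positivity) (by gcongr)
  obtain ⟨A, A0, hA⟩ : ∃ A > 0, A * (Real.log (‖ζ‖ ^ 2) - Real.log (r ^ 2)) = η :=
    ⟨η / _, div_pos η0 (sub_pos.2 l0), div_mul_cancel₀ _ (sub_pos.2 l0).ne'⟩
  obtain ⟨R, R1, R2⟩ := ((((Real.tendsto_log_atTop.comp (tendsto_pow_atTop two_ne_zero)).const_mul_atTop
    A0).eventually_ge_atTop (M - φ 0 + A * Real.log (r ^ 2))).and (eventually_ge_atTop 1)).exists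
  have T : Tendsto (fun t : ℝ => φ ![t, ζ]) (𝓝[>] 0) (𝓝 (φ ![0, ζ])) :=
    (ca _ (by simp [Ω, ζ1])).continuousAt.tendsto.comp
      ((Continuous.tendsto' (by fun_prop) _ _ (by simp)).mono_left nhdsWithin_le_nhds)
  obtain ⟨t, t1, t0, t2⟩ := ((T.eventually_const_lt (u := φ ![0, ζ] - η) (by linarith)).and
    (Ioo_mem_nhdsGT (lt_min r0 (show 0 < 1 / R by positivity)))).exists
  have t3 : t * R < 1 := (lt_div_iff₀ (by linarith)).1 (t2.trans_le (min_le_right _ _))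
  have m : ∀ w : ℂ, ‖w‖ ≤ R → ![(t : ℂ), w] ∈ Ω := fun w hw => by
    simp only [Ω, mem_ofPred_eq, Matrix.cons_val_zero, Matrix.cons_val_one, norm_mul, norm_real, Real.norm_of_nonneg t0.le]
    exact ⟨by nlinarith, by nlinarith, .inl (ofReal_ne_zero.2 t0.ne')⟩
  let g : ℂ → ℝ := fun w => A * Real.log (normSq w) - η / R ^ 2 * normSq w
  have cg : ∀ w ≠ 0, ContDiffAt ℝ 2 g w := fun w hw =>
    have := cn.contDiffAt.of_le (m := 2) (x := w) (by norm_cast)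
    (contDiffAt_const.mul (this.log (normSq_pos.2 hw).ne')).sub (contDiffAt_const.mul this)
  have n0 : ∀ w : ℂ, r ≤ ‖w‖ → w ≠ 0 := fun w h e => by simp [e] at h; linarith
  obtain ⟨w, ⟨w1, w2⟩, hw⟩ := ((isCompact_closedBall (0 : ℂ) R).inter_right
    (isClosed_le (f := fun _ => r) (g := norm) continuous_const continuous_norm)).exists_isMaxOn
    (f := fun w => φ ![t, w] - g w) ⟨ζ, by simp; linarith, r3.le⟩ fun w ⟨a, b⟩ =>
      (((ca _ (m w (by simpa using a))).continuousAt.comp (f := fun w : ℂ => ![(t : ℂ), w])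
        (by fun_prop)).sub (cg w (n0 w b)).continuousAt).continuousWithinAt
  simp only [mem_closedBall, dist_zero_right, mem_ofPred_eq] at w1 w2
  have k : φ ![t, ζ] - g ζ ≤ φ ![t, w] - g w := hw ⟨by simp; linarith, r3.le⟩
  have d0 : 0 < η / R ^ 2 := by positivity
  have d1 : η / R ^ 2 * ‖w‖ ^ 2 ≤ η := by rw [div_mul_eq_mul_div, div_le_iff₀ (by positivity)]; gcongr
  simp only [g, normSq_eq_norm_sq] at k
  have k0 : 0 ≤ η / R ^ 2 * ‖ζ‖ ^ 2 := by positivity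
  rcases w2.eq_or_lt with rfl | w2
  · have := hr (x := ![t, w]) (by
      rw [dist_zero_right, pi_norm_lt_iff r0, Fin.forall_fin_two]
      exact ⟨by simpa [abs_of_pos t0] using t2.trans_le (min_le_left _ _), r2⟩)
    linarith [(abs_lt.1 this).2]
  rcases w1.eq_or_lt with rfl | w1
  · have := hM ⟨_, m w le_rfl, rfl⟩
    simp only [Function.comp] at R1
    linarith
  have := sub t w (m w w1.le) g (cg w (n0 w w2.le)) (hw.isLocalMax (inter_mem (closedBall_mem_nhds_of_mem (by simpa))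
    (continuous_norm.continuousAt.eventually_const_le w2)))
  rw [bar _ _ (n0 w w2.le) (by simp), bar _ _ (n0 w w2.le) (by simp), sub_add_sub_comm, ← add_div, ← mul_add,
    show 2 * normSq w - 4 * (w.re * re 1 + w.im * im 1) ^ 2 + (2 * normSq w - 4 * (w.re * I.re + w.im * I.im) ^ 2) = 0 by
      simp [normSq_apply]; ring] at this
  simp at this
  linarith [p _ (m w w1.le) ![0, 1]]

theorem result : ∃ n ≥ 1, ∃ Ω ω : Set (Fin n → ℂ), IsOpen Ω ∧ IsConnected Ω ∧ IsOpen ω ∧ IsConnected ω ∧ ω ⊆ Ω ∧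
    core Ω ⊆ ω ∧ core ω ≠ core Ω := by
  have b : ∀ z : Fin 2 → ℂ, z ∈ ball 0 1 ↔ ‖z 0‖ < 1 ∧ ‖z 1‖ < 1 := fun z => by
    rw [mem_ball_zero_iff, pi_norm_lt_iff one_pos, Fin.forall_fin_two]
  have q : ∀ z : ℂ, ‖z‖ < 1 → normSq z ≤ 1 := fun z h => by rw [normSq_eq_norm_sq]; nlinarith [norm_nonneg z]
  refine ⟨2, one_le_two, Ω, ball 0 1, oΩ, (StarConvex.isPathConnected (a := 0) ?_ (by simp [Ω])).isConnected, isOpen_ball,
    (convex_ball _ _).isConnected ⟨0, by simp⟩, fun z hz => ?_, fun z ⟨hz, h⟩ => ?_, fun e => (e ▸ zero_mem).2 ?_⟩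
  · rintro z ⟨h1, h2, h3⟩ a t a0 t0 e
    have t1 : t ≤ 1 := by linarith
    simp only [Ω, smul_zero, zero_add, mem_ofPred_eq, Pi.smul_apply, norm_mul, norm_smul, Real.norm_of_nonneg t0] at h2 ⊢
    have := norm_nonneg (z 0); have := norm_nonneg (z 1)
    refine ⟨by nlinarith, by nlinarith [mul_nonneg t0 t0, mul_le_one₀ t1 t0 t1, mul_nonneg this ‹0 ≤ ‖z 0‖›], ?_⟩
    rcases t0.eq_or_lt with rfl | t0
    · simp
    · exact h3.imp (smul_ne_zero t0.ne') fun _ => by nlinarith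
  · obtain ⟨h1, h2⟩ := (b z).1 hz
    exact ⟨h1, by rw [norm_mul]; nlinarith [norm_nonneg (z 0), norm_nonneg (z 1)], .inr h2⟩
  · refine (b z).2 ⟨hz.1, hz.2.2.resolve_left fun z0 => h ⟨fun z => normSq (z 0) + normSq (z 0 * z 1),
      ((cn.comp (by fun_prop)).add (cn.comp (by fun_prop))).contDiffOn,
      fun w _ ξ => by rw [lev1]; exact add_nonneg (normSq_nonneg _) (normSq_nonneg _),
      ⟨2, by rintro _ ⟨w, h, rfl⟩; linarith [q _ h.1, q _ h.2.1]⟩, fun ξ hξ => ?_⟩⟩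
    rw [lev1]
    by_cases e : ξ 0 = 0
    · simpa [e, z0] using fun e' => hξ (by ext i; fin_cases i <;> simp [e, e'])
    · exact add_pos_of_pos_of_nonneg (normSq_pos.2 e) (normSq_nonneg _)
  · refine ⟨fun z => normSq (z 0) + normSq (z 1), ((cn.comp (by fun_prop)).add (cn.comp (by fun_prop))).contDiffOn,
      fun w _ ξ => by rw [lev2]; exact add_nonneg (normSq_nonneg _) (normSq_nonneg _),
      ⟨2, by rintro _ ⟨w, h, rfl⟩; linarith [q _ ((b w).1 h).1, q _ ((b w).1 h).2]⟩, fun ξ hξ => ?_⟩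
    rw [lev2]
    by_cases e : ξ 0 = 0
    · simpa [e] using fun e' => hξ (by ext i; fin_cases i <;> simp [e, e'])
    · exact add_pos_of_pos_of_nonneg (normSq_pos.2 e) (normSq_nonneg _)

end Pool.Agent.Results.MP_902c37_an.Core
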